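import Pool.Agent.H845.Voj.Core

set_option autoImplicit false

namespace Pool.Agent.H845.Voj2

open Module Pool.Agent.H845.Voj

variable {ι : Type} [Fintype ι] [DecidableEq ι]

theorem s_dvd (R e w k : ℕ) (hR : R ≠ 0) (he : e ≠ 0) (hk : k ≠ 0) (s : ι → ℕ)
    (hs : ∀ j, Squarefree (s j))
    (hp : ∀ i j, i ≠ j → ∀ p : ℕ, p.Prime → p ∣ s i → p ∣ s j → p ∣ R)
    (hc : ∀ j, ∀ p : ℕ, p.Prime → p ∣ s j → p ∣ k → p ∣ R)
    (hw : w ^ 2 * e = k * ∏ j, s j) : ∏ j, s j ∣ R ^ (Fintype.card ι) * e := by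
  have hs0 : ∀ j, s j ≠ 0 := fun j => (hs j).ne_zero
  have hP0 : ∏ j, s j ≠ 0 := Finset.prod_ne_zero_iff.2 fun j _ => hs0 j
  have hN0 : k * ∏ j, s j ≠ 0 := mul_ne_zero hk hP0
  have hw0 : w ≠ 0 := by
    rintro rfl
    apply hN0
    rw [← hw]; simp
  have hM0 : R ^ (Fintype.card ι) * e ≠ 0 := mul_ne_zero (pow_ne_zero _ hR) he
  have hfp : ∀ p : ℕ, (∏ j, s j).factorization p = ∑ j, (s j).factorization p := by
    intro p
    rw [Nat.factorization_prod fun j _ => hs0 j]
    simp
  have hs1 : ∀ j p, (s j).factorization p ≤ 1 := fun j p =>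
    (Nat.squarefree_iff_factorization_le_one (hs0 j)).1 (hs j) p
  rw [← Nat.factorization_le_iff_dvd hP0 hM0]
  intro p
  by_cases hpp : p.Prime
  · rw [hfp, Nat.factorization_mul (pow_ne_zero _ hR) he, Finsupp.add_apply]
    have hR' : (R ^ (Fintype.card ι)).factorization p =
        Fintype.card ι * R.factorization p := by
      rw [Nat.factorization_pow]; simp
    rw [hR']
    by_cases hpR : p ∣ R
    · have h2 : 1 ≤ R.factorization p := (hpp.dvd_iff_one_le_factorization hR).1 hpR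
      have h3 : ∑ j, (s j).factorization p ≤ Fintype.card ι := by
        calc ∑ j, (s j).factorization p ≤ ∑ _j : ι, 1 := Finset.sum_le_sum fun j _ => hs1 j p
          _ = Fintype.card ι := by simp
      have h5 : Fintype.card ι ≤ Fintype.card ι * R.factorization p :=
        Nat.le_mul_of_pos_right _ h2
      omega
    · by_cases hex : ∃ j0, p ∣ s j0
      · obtain ⟨j0, hj0⟩ := hex
        have h3 : ∑ j, (s j).factorization p = 1 := by
          rw [Finset.sum_eq_single j0]
          · have h4 := (hpp.dvd_iff_one_le_factorization (hs0 j0)).1 hj0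
            have h5 := hs1 j0 p
            omega
          · intro j _ hj
            apply Nat.factorization_eq_zero_of_not_dvd
            intro h
            exact hpR (hp j j0 hj p hpp h hj0)
          · intro h
            exact absurd (Finset.mem_univ j0) h
        have h4 : k.factorization p = 0 :=
          Nat.factorization_eq_zero_of_not_dvd fun h => hpR (hc j0 p hpp hj0 h)
        have h5 : (w ^ 2 * e).factorization p = 1 := by
          rw [hw, Nat.factorization_mul hk hP0, Finsupp.add_apply, hfp, h3, h4]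
        rw [Nat.factorization_mul (pow_ne_zero _ hw0) he, Finsupp.add_apply,
          Nat.factorization_pow] at h5
        simp only [Finsupp.coe_smul, Pi.smul_apply, smul_eq_mul] at h5
        rw [h3]
        omega
      · have h4 : ∑ j, (s j).factorization p = 0 := by
          apply Finset.sum_eq_zero
          intro j _
          exact Nat.factorization_eq_zero_of_not_dvd fun h => hex ⟨j, h⟩
        rw [h4]
        exact Nat.zero_le _
  · rw [Nat.factorization_eq_zero_of_not_prime _ hpp]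
    exact Nat.zero_le _

/-- the constant -/
def R2 (R0 : ℕ) (u v : ι → ℤ) : ℕ := R0 * RR 1 u v

theorem R2_ne {R0 : ℕ} {u v : ι → ℤ} (hR0 : R0 ≠ 0) (hdet : ∀ i j, i ≠ j → det u v i j ≠ 0) :
    R2 R0 u v ≠ 0 := mul_ne_zero hR0 (RR_ne one_ne_zero hdet)

theorem key_s {R0 : ℕ} {u v : ι → ℤ} (hR0 : R0 ≠ 0) (hdet : ∀ i j, i ≠ j → det u v i j ≠ 0)
    {a b : ℤ} (hab : IsCoprime a b) (hL : ∀ j, L u v j a b ≠ 0) (k : ℤ) (hk : k ≠ 0)
    (hc : ∀ j, ∀ p : ℕ, p.Prime → (p : ℤ) ∣ L u v j a b → (p : ℤ) ∣ k → p ∣ R0)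
    (q ρ : ℚ) (hρ : ρ ≠ 0)
    (hq : q = ρ ^ 2 * ((k * ∏ j, L u v j a b : ℤ) : ℚ)) (s m : ι → ℕ)
    (hs : ∀ j, Squarefree (s j)) (hm : ∀ j, (L u v j a b).natAbs = m j ^ 2 * s j) :
    ((∏ j, s j : ℕ) : ℝ) ≤ (R2 R0 u v : ℝ) ^ (Fintype.card ι) *
      Real.exp (2 * logDisc (SqrtField q)) := by
  have hs0 : ∀ j, s j ≠ 0 := fun j => (hs j).ne_zero
  have hm0 : ∀ j, m j ≠ 0 := by
    intro j h
    apply hL j
    rw [← Int.natAbs_eq_zero, hm j, h]
    simp
  set E : ℤ := k * ∏ j, ((L u v j a b).sign * (s j : ℤ)) with hE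
  have hEabs : E.natAbs = k.natAbs * ∏ j, s j := by
    rw [hE, Int.natAbs_mul]
    congr 1
    have h1 : ∀ t : Finset ι, (∏ j ∈ t, ((L u v j a b).sign * (s j : ℤ))).natAbs =
        ∏ j ∈ t, s j := by
      intro t
      induction t using Finset.induction_on with
      | empty => simp
      | insert x t hx ih =>
        rw [Finset.prod_insert hx, Finset.prod_insert hx, Int.natAbs_mul, ih, Int.natAbs_mul,
          Int.natAbs_sign_of_ne_zero (hL x), one_mul, Int.natAbs_natCast]
    exact h1 _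
  have hE0 : E ≠ 0 := by
    rw [← Int.natAbs_ne_zero, hEabs]
    exact mul_ne_zero (Int.natAbs_ne_zero.2 hk) (Finset.prod_ne_zero_iff.2 fun j _ => hs0 j)
  have hprod : k * ∏ j, L u v j a b = E * ((∏ j, m j : ℕ) : ℤ) ^ 2 := by
    rw [hE, mul_assoc]
    congr 1
    push_cast
    rw [← Finset.prod_pow, ← Finset.prod_mul_distrib]
    apply Finset.prod_congr rfl
    intro j _
    have h1 : L u v j a b = (L u v j a b).sign * ((L u v j a b).natAbs : ℤ) :=
      (Int.sign_mul_natAbs _).symm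
    conv_lhs => rw [h1, hm j]
    push_cast
    ring
  obtain ⟨e', w, hw, he'⟩ := Nat.sq_mul_squarefree E.natAbs
  set e : ℤ := E.sign * (e' : ℤ) with he
  have hEe : E = e * (w : ℤ) ^ 2 := by
    have h1 : E = E.sign * (E.natAbs : ℤ) := (Int.sign_mul_natAbs _).symm
    rw [he]
    conv_lhs => rw [h1, ← hw]
    push_cast
    ring
  have heabs : e.natAbs = e' := by
    rw [he, Int.natAbs_mul, Int.natAbs_sign_of_ne_zero hE0, one_mul, Int.natAbs_natCast]
  have hesq : Squarefree e := by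
    rw [← Int.squarefree_natAbs, heabs]
    exact he'
  have hw0 : w ≠ 0 := by
    rintro rfl
    apply hE0
    rw [hEe]; simp
  have hM0 : (∏ j, m j) ≠ 0 := Finset.prod_ne_zero_iff.2 fun j _ => hm0 j
  have h1 := logDisc_ge q (ρ * ((∏ j, m j : ℕ) : ℚ) * (w : ℚ)) (by
    refine mul_ne_zero (mul_ne_zero hρ ?_) ?_
    · exact_mod_cast hM0
    · exact_mod_cast hw0) e hesq (by
    rw [hq, hprod, hEe]
    push_cast
    ring)
  rw [heabs] at h1
  have he'0 : e' ≠ 0 := he'.ne_zero
  have he0 : (0 : ℝ) < e' := by exact_mod_cast Nat.pos_of_ne_zero he'0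
  have h2 : (e' : ℝ) ≤ Real.exp (2 * logDisc (SqrtField q)) := by
    rw [← Real.log_le_iff_le_exp he0]
    linarith
  have h3 : ∏ j, s j ∣ (R2 R0 u v) ^ (Fintype.card ι) * e' := by
    apply s_dvd (R2 R0 u v) e' w k.natAbs (R2_ne hR0 hdet) he'0 (Int.natAbs_ne_zero.2 hk) s hs
    · intro i j hij p _ hpi hpj
      have h4 : (p : ℤ) ∣ det u v i j := by
        apply dvd_det hab
        · rw [Int.natCast_dvd, hm i]
          exact hpi.mul_left _
        · rw [Int.natCast_dvd, hm j]
          exact hpj.mul_left _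
      exact ((Int.natCast_dvd.1 h4).trans (det_dvd_RR 1 u v i j hij)).trans
        (Dvd.intro_left _ rfl)
    · intro j p hp hpj hpk
      refine (hc j p hp ?_ ?_).trans (Dvd.intro _ rfl)
      · rw [Int.natCast_dvd, hm j]
        exact hpj.mul_left _
      · rw [Int.natCast_dvd]
        exact hpk
    · rw [hw, hEabs]
  have h6 : ∏ j, s j ≤ (R2 R0 u v) ^ (Fintype.card ι) * e' :=
    Nat.le_of_dvd (Nat.pos_of_ne_zero (mul_ne_zero (pow_ne_zero _ (R2_ne hR0 hdet)) he'0)) h3
  calc ((∏ j, s j : ℕ) : ℝ) ≤ (((R2 R0 u v) ^ (Fintype.card ι) * e' : ℕ) : ℝ) := by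
        exact_mod_cast h6
    _ = (R2 R0 u v : ℝ) ^ (Fintype.card ι) * e' := by push_cast; ring
    _ ≤ _ := by
        apply mul_le_mul_of_nonneg_left h2
        positivity

end Pool.Agent.H845.Voj2
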