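import Pool.Agent.H845.Voj2.MainB
import Pool.Agent.H845.Voj.Link

set_option autoImplicit false

namespace Pool.Agent.H845.Voj2

open Module Pool.Agent.H845.Voj Polynomial

/-- homogenization -/
noncomputable def hom (h : ℤ[X]) (a b : ℤ) : ℤ :=
  ∑ k ∈ Finset.range (h.natDegree + 1), h.coeff k * a ^ k * b ^ (h.natDegree - k)

theorem hom_eval (h : ℤ[X]) (a b : ℤ) (hb : b ≠ 0) :
    ((hom h a b : ℤ) : ℚ) = (b : ℚ) ^ h.natDegree * aeval ((a : ℚ) / b) h := by
  unfold hom
  rw [aeval_eq_sum_range, Finset.mul_sum]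
  push_cast
  apply Finset.sum_congr rfl
  intro k hk
  have hk' : k ≤ h.natDegree := Nat.lt_succ_iff.1 (Finset.mem_range.1 hk)
  have hb' : (b : ℚ) ≠ 0 := by exact_mod_cast hb
  have h1 : (b : ℚ) ^ h.natDegree = (b : ℚ) ^ (h.natDegree - k) * (b : ℚ) ^ k := by
    rw [← pow_add, Nat.sub_add_cancel hk']
  rw [h1, div_pow, zsmul_eq_mul]
  field_simp

theorem hom_modEq (h : ℤ[X]) (q r a b p : ℤ) (hp : p ∣ q * a - r * b) :
    p ∣ q ^ h.natDegree * hom h a b - b ^ h.natDegree * hom h r q := by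
  unfold hom
  rw [Finset.mul_sum, Finset.mul_sum, ← Finset.sum_sub_distrib]
  apply Finset.dvd_sum
  intro k hk
  have hk' : k ≤ h.natDegree := Nat.lt_succ_iff.1 (Finset.mem_range.1 hk)
  have h1 : q ^ h.natDegree = q ^ (h.natDegree - k) * q ^ k := by
    rw [← pow_add, Nat.sub_add_cancel hk']
  have h2 : b ^ h.natDegree = b ^ (h.natDegree - k) * b ^ k := by
    rw [← pow_add, Nat.sub_add_cancel hk']
  have h3 : q ^ h.natDegree * (h.coeff k * a ^ k * b ^ (h.natDegree - k)) -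
      b ^ h.natDegree * (h.coeff k * r ^ k * q ^ (h.natDegree - k)) =
      (h.coeff k * b ^ (h.natDegree - k) * q ^ (h.natDegree - k)) *
        ((q * a) ^ k - (r * b) ^ k) := by
    rw [h1, h2, mul_pow, mul_pow]
    ring
  rw [h3]
  exact (hp.trans (sub_dvd_pow_sub_pow _ _ k)).mul_left _

theorem hom_lead (h : ℤ[X]) (a b p : ℤ) (hp : p ∣ b) :
    p ∣ hom h a b - h.leadingCoeff * a ^ h.natDegree := by
  unfold hom
  rw [Finset.sum_range_succ, Nat.sub_self, pow_zero, mul_one, leadingCoeff]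
  have h1 : ∀ z w : ℤ, z + w - w = z := fun z w => by ring
  rw [h1]
  apply Finset.dvd_sum
  intro k hk
  have hk' : k < h.natDegree := Finset.mem_range.1 hk
  refine Dvd.dvd.mul_left ?_ _
  exact dvd_pow hp (by omega)

variable {r' : ℕ} (c : ℚ) (e : Fin r' → ℚ) (h : ℤ[X])

/-- the constant -/
noncomputable def RC : ℕ :=
  (c.num.natAbs * c.den * (∏ i, (e i).den)) * h.leadingCoeff.natAbs *
    ∏ i, (hom h (e i).num (e i).den).natAbs

theorem RC_ne (hc : c ≠ 0) (hh : h ≠ 0) (he : ∀ i, aeval (e i) h ≠ 0) : RC c e h ≠ 0 := by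
  unfold RC
  refine mul_ne_zero (mul_ne_zero (mul_ne_zero (mul_ne_zero ?_ c.den_ne_zero) ?_) ?_) ?_
  · exact Int.natAbs_ne_zero.2 (Rat.num_ne_zero.2 hc)
  · exact Finset.prod_ne_zero_iff.2 fun i _ => (e i).den_ne_zero
  · exact Int.natAbs_ne_zero.2 (leadingCoeff_ne_zero.2 hh)
  · refine Finset.prod_ne_zero_iff.2 fun i _ => Int.natAbs_ne_zero.2 ?_
    intro h1
    have hd : ((e i).den : ℤ) ≠ 0 := by exact_mod_cast (e i).den_ne_zero
    have h2 := hom_eval h (e i).num (e i).den hd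
    rw [h1] at h2
    have h3 : (((e i).num : ℤ) : ℚ) / (((e i).den : ℤ) : ℚ) = e i := by
      push_cast
      exact Rat.num_div_den (e i)
    rw [h3] at h2
    have h4 : (((e i).den : ℤ) : ℚ) ^ h.natDegree * aeval (e i) h ≠ 0 :=
      mul_ne_zero (pow_ne_zero _ (by exact_mod_cast hd)) (he i)
    exact h4 (by rw [← h2]; simp)

/-- the cofactor -/
noncomputable def kk (x : ℚ) : ℤ :=
  c.num * c.den * (∏ i, ((e i).den : ℤ)) * hom h x.num x.den

theorem cof_aux (x : ℚ) (p : ℕ) (hp : p.Prime) (hk : (p : ℤ) ∣ kk c e h x) :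
    p ∣ RC c e h ∨ (p : ℤ) ∣ hom h x.num x.den := by
  unfold kk at hk
  rcases (Nat.prime_iff_prime_int.1 hp).dvd_or_dvd hk with h1 | h1
  · left
    have h2 := Int.natCast_dvd.1 h1
    unfold RC
    refine Dvd.dvd.mul_right (Dvd.dvd.mul_right ?_ _) _
    rw [Int.natAbs_mul, Int.natAbs_mul, Int.natAbs_natCast] at h2
    have h3 : (∏ i, ((e i).den : ℤ)).natAbs = ∏ i, (e i).den := by
      rw [← Nat.cast_prod, Int.natAbs_natCast]
    rw [h3] at h2
    exact h2
  · right; exact h1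

theorem cof_root (x : ℚ) (i : Fin r') (p : ℕ) (hp : p.Prime)
    (hL : (p : ℤ) ∣ ((e i).den : ℤ) * x.num + (-(e i).num) * x.den)
    (hk : (p : ℤ) ∣ kk c e h x) : p ∣ RC c e h := by
  rcases cof_aux c e h x p hp hk with h1 | h1
  · exact h1
  have hpp := Nat.prime_iff_prime_int.1 hp
  have h2 : (p : ℤ) ∣ ((e i).den : ℤ) * x.num - (e i).num * x.den := by
    have : ((e i).den : ℤ) * x.num + (-(e i).num) * x.den =
      ((e i).den : ℤ) * x.num - (e i).num * x.den := by ring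
    rwa [this] at hL
  have h3 := hom_modEq h (e i).den (e i).num x.num x.den p h2
  have h4 : (p : ℤ) ∣ (x.den : ℤ) ^ h.natDegree * hom h (e i).num (e i).den := by
    have h5 : (p : ℤ) ∣ ((e i).den : ℤ) ^ h.natDegree * hom h x.num x.den := h1.mul_left _
    have h6 := dvd_sub h5 h3
    have h7 : ((e i).den : ℤ) ^ h.natDegree * hom h x.num x.den -
        (((e i).den : ℤ) ^ h.natDegree * hom h x.num x.den -
          (x.den : ℤ) ^ h.natDegree * hom h (e i).num (e i).den) =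
        (x.den : ℤ) ^ h.natDegree * hom h (e i).num (e i).den := by ring
    rwa [h7] at h6
  rcases hpp.dvd_or_dvd h4 with h5 | h5
  · have h6 : (p : ℤ) ∣ (x.den : ℤ) := hpp.dvd_of_dvd_pow h5
    have h7 : (p : ℤ) ∣ ((e i).den : ℤ) * x.num := by
      have h8 := dvd_add h2 (h6.mul_left ((e i).num))
      have h9 : ((e i).den : ℤ) * x.num - (e i).num * x.den + (e i).num * x.den =
        ((e i).den : ℤ) * x.num := by ring
      rwa [h9] at h8
    rcases hpp.dvd_or_dvd h7 with h8 | h8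
    · have h9 : p ∣ (e i).den := by exact_mod_cast h8
      unfold RC
      refine Dvd.dvd.mul_right (Dvd.dvd.mul_right ?_ _) _
      refine Dvd.dvd.mul_left ?_ _
      exact h9.trans (Finset.dvd_prod_of_mem (fun i => (e i).den) (Finset.mem_univ i))
    · exfalso
      obtain ⟨y, z, hyz⟩ := cop x
      have h9 : (p : ℤ) ∣ 1 := by
        rw [← hyz]
        exact dvd_add (h8.mul_left _) (h6.mul_left _)
      exact hpp.not_isUnit (isUnit_of_dvd_one h9)
  · unfold RC
    refine Dvd.dvd.mul_left ?_ _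
    exact (Int.natCast_dvd.1 h5).trans
      (Finset.dvd_prod_of_mem (fun i => (hom h (e i).num (e i).den).natAbs) (Finset.mem_univ i))

theorem cof_inf (x : ℚ) (p : ℕ) (hp : p.Prime) (hL : (p : ℤ) ∣ (x.den : ℤ))
    (hk : (p : ℤ) ∣ kk c e h x) : p ∣ RC c e h := by
  rcases cof_aux c e h x p hp hk with h1 | h1
  · exact h1
  have hpp := Nat.prime_iff_prime_int.1 hp
  have h3 := hom_lead h x.num x.den p hL
  have h4 : (p : ℤ) ∣ h.leadingCoeff * x.num ^ h.natDegree := by
    have h6 := dvd_sub h1 h3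
    have h7 : hom h x.num x.den - (hom h x.num x.den - h.leadingCoeff * x.num ^ h.natDegree) =
      h.leadingCoeff * x.num ^ h.natDegree := by ring
    rwa [h7] at h6
  rcases hpp.dvd_or_dvd h4 with h5 | h5
  · unfold RC
    refine Dvd.dvd.mul_right (Dvd.dvd.mul_left ?_ _) _
    exact Int.natCast_dvd.1 h5
  · exfalso
    have h8 : (p : ℤ) ∣ x.num := hpp.dvd_of_dvd_pow h5
    obtain ⟨y, z, hyz⟩ := cop x
    have h9 : (p : ℤ) ∣ 1 := by
      rw [← hyz]
      exact dvd_add (h8.mul_left _) (hL.mul_left _)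
    exact hpp.not_isUnit (isUnit_of_dvd_one h9)

/-- the polynomial function -/
noncomputable def ff (x : ℚ) : ℚ := c * (∏ i, (x - e i)) * aeval x h

theorem ff_formula (x : ℚ) :
    ff c e h x = (1 / (c.den * (∏ i, ((e i).den : ℚ)))) ^ 2 *
      (1 / (x.den : ℚ) ^ (r' + h.natDegree)) *
      ((kk c e h x : ℤ) : ℚ) * (∏ i, (((e i).den : ℤ) * x.num + (-(e i).num) * x.den : ℤ) : ℤ) := by
  have hxd : (x.den : ℚ) ≠ 0 := by exact_mod_cast x.den_ne_zero
  have hxd' : (x.den : ℤ) ≠ 0 := by exact_mod_cast x.den_ne_zero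
  have hed : ∀ i, ((e i).den : ℚ) ≠ 0 := fun i => by exact_mod_cast (e i).den_ne_zero
  have hcd : (c.den : ℚ) ≠ 0 := by exact_mod_cast c.den_ne_zero
  have hq0 : (∏ i, ((e i).den : ℚ)) ≠ 0 := Finset.prod_ne_zero_iff.2 fun i _ => hed i
  have h1 : (((∏ i, (((e i).den : ℤ) * x.num + (-(e i).num) * x.den : ℤ) : ℤ)) : ℚ)
      = (∏ i, ((e i).den : ℚ)) * (x.den : ℚ) ^ r' * ∏ i, (x - e i) := by
    rw [Int.cast_prod]
    have h2 : ∀ j, (((((e j).den : ℤ) * x.num + (-(e j).num) * x.den : ℤ)) : ℚ)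
        = (e j).den * x.den * (x - e j) := fun j => Lval (e j) x
    simp_rw [h2]
    rw [Finset.prod_mul_distrib, Finset.prod_mul_distrib]
    simp
  have h2 := hom_eval h x.num x.den hxd'
  have h3 : ((x.num : ℤ) : ℚ) / (((x.den : ℤ)) : ℚ) = x := by
    push_cast
    exact Rat.num_div_den x
  rw [h3] at h2
  have hcn : (c.num : ℚ) = c * c.den := (Rat.mul_den_eq_num c).symm
  rw [h1]
  unfold kk ff
  push_cast
  push_cast at h2
  rw [h2, hcn, pow_add]
  field_simp

theorem ff_ne {x : ℚ} (hx : ff c e h x ≠ 0) (i : Fin r') :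
    ((e i).den : ℤ) * x.num + (-(e i).num) * x.den ≠ 0 := by
  intro h2
  unfold ff at hx
  have hx1 : ∏ i, (x - e i) ≠ 0 := right_ne_zero_of_mul (left_ne_zero_of_mul hx)
  have hx2 : x - e i ≠ 0 := Finset.prod_ne_zero_iff.1 hx1 i (Finset.mem_univ i)
  have h1 := Lval (e i) x
  rw [h2] at h1
  have hxd : (x.den : ℚ) ≠ 0 := by exact_mod_cast x.den_ne_zero
  have hed : ((e i).den : ℚ) ≠ 0 := by exact_mod_cast (e i).den_ne_zero
  have h3 : (((e i).den : ℚ) * x.den * (x - e i)) ≠ 0 := mul_ne_zero (mul_ne_zero hed hxd) hx2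
  exact h3 (by rw [← h1]; simp)

theorem kk_ne {x : ℚ} (hx : ff c e h x ≠ 0) : kk c e h x ≠ 0 := by
  intro h1
  apply hx
  rw [ff_formula, h1]
  simp

theorem good_even (l : ℕ) (hl : r' + h.natDegree = 2 * l) :
    Good (fun i : Fin r' => ((e i).den : ℤ)) (fun i => -(e i).num) (RC c e h) (ff c e h) := by
  intro x hx
  have hxd : (x.den : ℚ) ≠ 0 := by exact_mod_cast x.den_ne_zero
  have hed : ∀ i, ((e i).den : ℚ) ≠ 0 := fun i => by exact_mod_cast (e i).den_ne_zero
  have hcd : (c.den : ℚ) ≠ 0 := by exact_mod_cast c.den_ne_zero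
  have hq0 : (∏ i, ((e i).den : ℚ)) ≠ 0 := Finset.prod_ne_zero_iff.2 fun i _ => hed i
  refine ⟨fun j => ff_ne c e h hx j, kk c e h x, kk_ne c e h hx,
    fun j p hp hL hk => cof_root c e h x j p hp hL hk,
    1 / (c.den * (∏ i, ((e i).den : ℚ))) * (1 / (x.den : ℚ) ^ l), ?_, ?_⟩
  · exact mul_ne_zero (one_div_ne_zero (mul_ne_zero hcd hq0)) (one_div_ne_zero (pow_ne_zero _ hxd))
  · rw [ff_formula, hl, Int.cast_mul]
    have h1 : (∏ j, L (fun i : Fin r' => ((e i).den : ℤ)) (fun i => -(e i).num) j x.num x.den) =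
        ∏ i, (((e i).den : ℤ) * x.num + (-(e i).num) * x.den) := rfl
    rw [h1, mul_pow, one_div_pow (((x.den : ℚ)) ^ l), ← pow_mul]
    ring

theorem good_odd (l : ℕ) (hl : r' + h.natDegree = 2 * l + 1) :
    Good (fun o : Option (Fin r') => o.elim 0 (fun i => ((e i).den : ℤ)))
      (fun o => o.elim 1 (fun i => -(e i).num)) (RC c e h) (ff c e h) := by
  intro x hx
  have hxd : (x.den : ℚ) ≠ 0 := by exact_mod_cast x.den_ne_zero
  have hed : ∀ i, ((e i).den : ℚ) ≠ 0 := fun i => by exact_mod_cast (e i).den_ne_zero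
  have hcd : (c.den : ℚ) ≠ 0 := by exact_mod_cast c.den_ne_zero
  have hq0 : (∏ i, ((e i).den : ℚ)) ≠ 0 := Finset.prod_ne_zero_iff.2 fun i _ => hed i
  refine ⟨?_, kk c e h x, kk_ne c e h hx, ?_,
    1 / (c.den * (∏ i, ((e i).den : ℚ))) * (1 / (x.den : ℚ) ^ (l + 1)), ?_, ?_⟩
  · intro j
    rcases j with _ | j
    · simp [L, x.den_ne_zero]
    · exact ff_ne c e h hx j
  · intro j p hp hL hk
    rcases j with _ | j
    · apply cof_inf c e h x p hp _ hk
      simpa [L] using hL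
    · exact cof_root c e h x j p hp hL hk
  · exact mul_ne_zero (one_div_ne_zero (mul_ne_zero hcd hq0)) (one_div_ne_zero (pow_ne_zero _ hxd))
  · rw [ff_formula, hl, Int.cast_mul, Fintype.prod_option]
    have h1 : (∏ j, L (fun o : Option (Fin r') => o.elim 0 (fun i => ((e i).den : ℤ)))
        (fun o => o.elim 1 (fun i => -(e i).num)) (some j) x.num x.den) =
        ∏ i, (((e i).den : ℤ) * x.num + (-(e i).num) * x.den) := rfl
    have h2 : L (fun o : Option (Fin r') => o.elim 0 (fun i => ((e i).den : ℤ)))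
        (fun o => o.elim 1 (fun i => -(e i).num)) none x.num x.den = x.den := by
      simp [L]
    rw [h1, h2, mul_pow, one_div_pow (((x.den : ℚ)) ^ (l + 1)), ← pow_mul]
    have h3 : (x.den : ℚ) ^ ((l + 1) * 2) = (x.den : ℚ) ^ (2 * l + 1) * x.den := by
      rw [← pow_succ]; congr 1; ring
    rw [h3]
    push_cast
    field_simp
    congr 1
    apply Finset.prod_congr rfl
    intro i _
    ring

theorem detE (he : Function.Injective e) (i j : Fin r') (hij : i ≠ j) :
    det (fun i : Fin r' => ((e i).den : ℤ)) (fun i => -(e i).num) i j ≠ 0 :=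
  detne fun h => hij (he h)

theorem detO (he : Function.Injective e) (i j : Option (Fin r')) (hij : i ≠ j) :
    det (fun o : Option (Fin r') => o.elim 0 (fun i => ((e i).den : ℤ)))
      (fun o => o.elim 1 (fun i => -(e i).num)) i j ≠ 0 := by
  rcases i with _ | i <;> rcases j with _ | j
  · exact absurd rfl hij
  · simp [det]
  · simp [det]
  · exact detne fun h => hij (by rw [he h])

theorem uvE (j : Fin r') : |((e j).den : ℤ)| + |-(e j).num| ≠ 0 := by
  have h1 : (0 : ℤ) < |((e j).den : ℤ)| := abs_pos.2 (by exact_mod_cast (e j).den_ne_zero)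
  have h2 : (0 : ℤ) ≤ |-(e j).num| := abs_nonneg _
  omega

theorem uvO (j : Option (Fin r')) : |(j.elim 0 (fun i => ((e i).den : ℤ)) : ℤ)| +
    |(j.elim 1 (fun i => -(e i).num) : ℤ)| ≠ 0 := by
  rcases j with _ | j
  · simp
  · exact uvE e j

end Pool.Agent.H845.Voj2
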