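import Pool.Agent.H845.Voj2.MainB
import Pool.Agent.H845.Voj.MainA

set_option autoImplicit false

namespace Pool.Agent.H845.Voj2

open Module Pool.Agent.H845.Voj

variable {ι : Type} [Fintype ι] [DecidableEq ι]

set_option maxHeartbeats 1000000 in
theorem main_a (r : ℕ) (hr : 2 ≤ r) (hN : Fintype.card ι = r) {R0 : ℕ} {u v : ι → ℤ}
    (hR0 : R0 ≠ 0) (hdet : ∀ i j, i ≠ j → det u v i j ≠ 0)
    (f : ℚ → ℚ) (hf : Good u v R0 f) (κ : ℝ) (hκ : 0 ≤ κ) :
    ∃ C : ℝ, ∀ B : ℕ, 1 ≤ B →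
      ({x : ℚ | hgt x ≤ B ∧ f x ≠ 0 ∧
        logDisc (SqrtField (f x)) ≤ κ * Real.log (hgt x)}.ncard : ℝ) ≤
      C * (B : ℝ) ^ (1 + 2 * κ / r) * (1 + Real.log B) := by
  classical
  have : NeZero r := ⟨by omega⟩
  set A : ℕ := 1 + ∑ j, ((u j).natAbs + (v j).natAbs) with hA
  have hle : ∀ j, (u j).natAbs + (v j).natAbs ≤ ∑ j, ((u j).natAbs + (v j).natAbs) := fun j =>
    Finset.single_le_sum (f := fun j => (u j).natAbs + (v j).natAbs)
      (fun _ _ => Nat.zero_le _) (Finset.mem_univ j)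
  have hu : ∀ j, (u j).natAbs ≤ A := fun j => by have := hle j; omega
  have hv : ∀ j, (v j).natAbs ≤ A := fun j => by have := hle j; omega
  set R : ℝ := (R2 R0 u v : ℝ) with hR
  have hR1 : 1 ≤ R := by
    rw [hR]
    exact_mod_cast Nat.one_le_iff_ne_zero.2 (R2_ne hR0 hdet)
  have hR0' : 0 < R := by linarith
  have hr0 : (0 : ℝ) < (r : ℝ) := by exact_mod_cast (by omega : 0 < r)
  have hlogR : 0 ≤ Real.log R := Real.log_nonneg hR1
  refine ⟨r * (8 * (2 * A) * R) * (1 + 2 * Real.log R + 4 * κ / r), ?_⟩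
  intro B hB
  have hB1 : (1 : ℝ) ≤ B := by exact_mod_cast hB
  have hB0 : (0 : ℝ) < B := by linarith
  have hlogB : 0 ≤ Real.log B := Real.log_nonneg hB1
  have hfin : {x : ℚ | hgt x ≤ B ∧ f x ≠ 0 ∧
      logDisc (SqrtField (f x)) ≤ κ * Real.log (hgt x)}.Finite :=
    (fin_hgt B).subset fun x hx => hx.1
  set E : Finset ℚ := hfin.toFinset with hE
  have hEm : ∀ x ∈ E, hgt x ≤ B ∧ f x ≠ 0 ∧
      logDisc (SqrtField (f x)) ≤ κ * Real.log (hgt x) := by
    intro x hx
    exact hfin.mem_toFinset.1 hx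
  rw [Set.ncard_eq_toFinset_card _ hfin, ← hE]
  have hcard : Fintype.card (ZMod r) = Fintype.card ι := by
    rw [hN, ZMod.card]
  set ε : ZMod r ≃ ι := Fintype.equivOfCardEq hcard with hε
  have : Fact (1 < r) := ⟨by omega⟩
  have hne : ∀ k : ZMod r, ε k ≠ ε (k + 1) := by
    intro k h
    have h1 := ε.injective h
    have h2 : (1 : ZMod r) = 0 := by
      have h3 : k + 1 = k + 0 := by rw [add_zero]; exact h1.symm
      exact add_left_cancel h3
    exact one_ne_zero h2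
  set T1 : ℝ := R ^ r * (B : ℝ) ^ (2 * κ) with hT1
  have hT10 : 0 < T1 := by rw [hT1]; positivity
  set T0 : ℝ := T1 ^ (2 / (r : ℝ)) with hT0
  have hT00 : 0 < T0 := by rw [hT0]; positivity
  set T : ℕ := ⌊T0⌋₊ with hT
  set Y : ℕ := 2 * A * B with hY
  set P : ZMod r → ℚ → Prop := fun k x =>
    ∃ s m s' m' : ℕ, 1 ≤ s ∧ 1 ≤ m ∧ 1 ≤ s' ∧ 1 ≤ m' ∧ s * s' ≤ T ∧
        m ^ 2 * s = (L u v (ε k) x.num x.den).natAbs ∧
        m' ^ 2 * s' = (L u v (ε (k + 1)) x.num x.den).natAbs with hP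
  have hcover : E ⊆ (Finset.univ : Finset (ZMod r)).biUnion (fun k => E.filter (P k)) := by
    intro x hx
    obtain ⟨h1, h2, h3⟩ := hEm x hx
    obtain ⟨hL, k, hk, hcof, ρ, hρ, hq⟩ := hf x h2
    have hex : ∀ j, ∃ s m : ℕ, m ^ 2 * s = (L u v j x.num x.den).natAbs ∧ Squarefree s :=
      fun j => Nat.sq_mul_squarefree _
    choose s m hm hs using hex
    have hs0 : ∀ j, 1 ≤ s j := fun j => Nat.one_le_iff_ne_zero.2 (hs j).ne_zero
    have hm0 : ∀ j, 1 ≤ m j := by
      intro j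
      apply Nat.one_le_iff_ne_zero.2
      intro h
      apply hL j
      rw [← Int.natAbs_eq_zero, ← hm j, h]
      simp
    have h4 := key_s hR0 hdet (cop x) hL k hk hcof (f x) ρ hρ hq s m hs (fun j => (hm j).symm)
    rw [hN, ← hR] at h4
    have hH1 : (1 : ℝ) ≤ hgt x := by exact_mod_cast hgt_pos x
    have h5 : Real.exp (2 * logDisc (SqrtField (f x))) ≤ (B : ℝ) ^ (2 * κ) := by
      rw [Real.rpow_def_of_pos hB0]
      apply Real.exp_le_exp.2
      have h6 : Real.log (hgt x) ≤ Real.log B :=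
        Real.log_le_log (by linarith) (by exact_mod_cast h1)
      have h7 : κ * Real.log (hgt x) ≤ κ * Real.log B := mul_le_mul_of_nonneg_left h6 hκ
      linarith
    have h6 : ((∏ j, s j : ℕ) : ℝ) ≤ T1 :=
      h4.trans (mul_le_mul_of_nonneg_left h5 (by positivity))
    have h7 : ∏ k : ZMod r, (s (ε k) * s (ε (k + 1))) = (∏ j, s j) ^ 2 := by
      have h7a : ∏ k : ZMod r, s (ε (k + 1)) = ∏ k : ZMod r, s (ε k) :=
        Equiv.prod_comp (Equiv.addRight (1 : ZMod r)) (fun k => s (ε k))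
      rw [Finset.prod_mul_distrib, h7a, Equiv.prod_comp ε s, sq]
    have h8 : ∃ k : ZMod r, ((s (ε k) * s (ε (k + 1)) : ℕ) : ℝ) ≤ T0 := by
      by_contra hcon
      push Not at hcon
      have h9 : T0 ^ r < ∏ k : ZMod r, ((s (ε k) * s (ε (k + 1)) : ℕ) : ℝ) := by
        have : T0 ^ r = ∏ _k : ZMod r, T0 := by
          rw [Finset.prod_const, Finset.card_univ, ZMod.card]
        rw [this]
        exact Finset.prod_lt_prod_of_nonempty (fun _ _ => hT00) (fun k _ => hcon k)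
          Finset.univ_nonempty
      have h10 : T0 ^ r = T1 ^ 2 := by
        rw [hT0, ← Real.rpow_natCast, ← Real.rpow_mul hT10.le]
        have : 2 / (r : ℝ) * (r : ℝ) = 2 := by field_simp
        rw [this, Real.rpow_two]
      have h11 : ∏ k : ZMod r, ((s (ε k) * s (ε (k + 1)) : ℕ) : ℝ) =
          (((∏ j, s j : ℕ) : ℝ)) ^ 2 := by
        exact_mod_cast h7
      rw [h10, h11] at h9
      have h12 : (((∏ j, s j : ℕ) : ℝ)) ^ 2 ≤ T1 ^ 2 :=
        pow_le_pow_left₀ (by positivity) h6 2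
      linarith
    obtain ⟨k, hk⟩ := h8
    rw [Finset.mem_biUnion]
    refine ⟨k, Finset.mem_univ _, Finset.mem_filter.2 ⟨hx, ?_⟩⟩
    exact ⟨s (ε k), m (ε k), s (ε (k + 1)), m (ε (k + 1)), hs0 _, hm0 _,
      hs0 _, hm0 _, Nat.le_floor hk, hm _, hm _⟩
  have hone : ∀ k, ((E.filter (P k)).card : ℝ) ≤
      8 * Y * Real.sqrt T * (1 + Real.log T) := by
    intro k
    apply pair_count (ε k) (ε (k + 1)) (hdet _ _ (hne k)) Y T
    intro x hx
    obtain ⟨hxE, hxP⟩ := Finset.mem_filter.1 hx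
    have h1 := (hEm x hxE).1
    have h2 : ∀ j, (L u v j x.num x.den).natAbs ≤ Y := fun j =>
      (L_le hu hv x j).trans (Nat.mul_le_mul_left _ h1)
    exact ⟨h2 _, h2 _, hxP⟩
  have htot : (E.card : ℝ) ≤ r * (8 * Y * Real.sqrt T * (1 + Real.log T)) := by
    have h1 := (Finset.card_le_card hcover).trans Finset.card_biUnion_le
    have h2 : (E.card : ℝ) ≤ ∑ k : ZMod r, ((E.filter (P k)).card : ℝ) := by
      exact_mod_cast h1
    refine h2.trans ((Finset.sum_le_sum fun k _ => hone k).trans (le_of_eq ?_))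
    rw [Finset.sum_const, Finset.card_univ, ZMod.card, nsmul_eq_mul]
  have hTle : (T : ℝ) ≤ T0 := Nat.floor_le hT00.le
  have hsqT : Real.sqrt T ≤ R * (B : ℝ) ^ (2 * κ / r) := by
    have h1 : Real.sqrt T0 = R * (B : ℝ) ^ (2 * κ / r) := by
      rw [Real.sqrt_eq_iff_mul_self_eq hT00.le (by positivity), hT0, hT1,
        Real.mul_rpow (by positivity) (by positivity), ← Real.rpow_natCast R r,
        ← Real.rpow_mul hR0'.le, ← Real.rpow_mul hB0.le]
      have h2 : (r : ℝ) * (2 / (r : ℝ)) = 2 := by field_simp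
      have h3 : 2 * κ * (2 / (r : ℝ)) = 2 * κ / r + 2 * κ / r := by ring
      rw [h2, h3, Real.rpow_add hB0, Real.rpow_two]
      ring
    rw [← h1]
    exact Real.sqrt_le_sqrt hTle
  have hlogT : Real.log T ≤ 2 * Real.log R + 4 * κ / r * Real.log B := by
    have h1 : Real.log T0 = 2 * Real.log R + 4 * κ / r * Real.log B := by
      rw [hT0, hT1, Real.log_rpow (by positivity), Real.log_mul (by positivity) (by positivity),
        Real.log_pow, Real.log_rpow hB0]
      field_simp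
      ring
    rcases Nat.eq_zero_or_pos T with h0 | h0
    · rw [h0]
      simp only [Nat.cast_zero, Real.log_zero]
      positivity
    · rw [← h1]
      exact Real.log_le_log (by exact_mod_cast h0) hTle
  have hlogT0 : 0 ≤ Real.log (T : ℝ) := Real.log_natCast_nonneg _
  have h9 : 1 + Real.log T ≤ (1 + 2 * Real.log R + 4 * κ / r) * (1 + Real.log B) := by
    have h10 : 0 ≤ 4 * κ / (r : ℝ) := by positivity
    have h11 : 0 ≤ Real.log R * Real.log B := mul_nonneg hlogR hlogB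
    have h12 : (1 + 2 * Real.log R + 4 * κ / r) * (1 + Real.log B) =
        1 + 2 * Real.log R + 4 * κ / r + Real.log B + 2 * (Real.log R * Real.log B) +
        4 * κ / r * Real.log B := by ring
    rw [h12]
    linarith
  refine htot.trans ?_
  have h13 : (B : ℝ) ^ (1 + 2 * κ / r) = B * (B : ℝ) ^ (2 * κ / r) := by
    rw [Real.rpow_add hB0, Real.rpow_one]
  have hYr : (Y : ℝ) = 2 * A * B := by rw [hY]; push_cast; ring
  rw [h13, hYr]
  calc (r : ℝ) * (8 * (2 * A * B) * Real.sqrt T * (1 + Real.log T)) ≤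
      (r : ℝ) * (8 * (2 * A * B) * (R * (B : ℝ) ^ (2 * κ / r)) *
        ((1 + 2 * Real.log R + 4 * κ / r) * (1 + Real.log B))) := by
        apply mul_le_mul_of_nonneg_left _ hr0.le
        apply mul_le_mul _ h9 (by positivity) (by positivity)
        exact mul_le_mul_of_nonneg_left hsqT (by positivity)
    _ = _ := by ring

end Pool.Agent.H845.Voj2
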