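import Pool.Agent.H845.Voj2.Key

set_option autoImplicit false

namespace Pool.Agent.H845.Voj2

open Module Pool.Agent.H845.Voj

variable {ι : Type} [Fintype ι] [DecidableEq ι]

/-- the hypothesis on `f` -/
def Good (u v : ι → ℤ) (R0 : ℕ) (f : ℚ → ℚ) : Prop :=
  ∀ x, f x ≠ 0 → (∀ j, L u v j x.num x.den ≠ 0) ∧ ∃ k : ℤ, k ≠ 0 ∧
    (∀ j, ∀ p : ℕ, p.Prime → (p : ℤ) ∣ L u v j x.num x.den → (p : ℤ) ∣ k → p ∣ R0) ∧
    ∃ ρ : ℚ, ρ ≠ 0 ∧ f x = ρ ^ 2 * ((k * ∏ j, L u v j x.num x.den : ℤ) : ℚ)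

set_option maxHeartbeats 1000000 in
theorem exc_tuple (N : ℕ) (hN : Fintype.card ι = N + 1) {R0 : ℕ} {u v : ι → ℤ}
    (hR0 : R0 ≠ 0) (hdet : ∀ i j, i ≠ j → det u v i j ≠ 0) {A : ℕ} (hA : 1 ≤ A)
    (hu : ∀ j, (u j).natAbs ≤ A) (hv : ∀ j, (v j).natAbs ≤ A) (f : ℚ → ℚ)
    (hf : Good u v R0 f) (κ θ α : ℝ) (hθ : 2 * θ = N - 2 * κ) (hα0 : 0 ≤ α) (hαθ : α ≤ θ)
    (x : ℚ) (hx : f x ≠ 0) (B : ℝ) (hB : 1 ≤ B)
    (hxB : (hgt x : ℝ) ≤ B) (hBx : B ≤ 2 * (hgt x : ℝ))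
    (hexc : logDisc (SqrtField (f x)) ≤ κ * Real.log (hgt x))
    (c W1 W2 : ℝ) (hc : c = 1 / Real.sqrt ((2 * A) ^ N * (R2 R0 u v : ℝ) ^ (N + 1)) *
      (1 / 2 : ℝ) ^ θ)
    (hW1 : W1 = max 1 (c * B ^ α)) (hW2 : W2 = W1 * Real.sqrt (2 * A * B)) :
    ∃ m ∈ MM ι ⌊W2⌋₊ W1 W2, (∀ j, m j ≠ 0) ∧
      ∀ j, ((m j ^ 2 : ℕ) : ℤ) ∣ L u v j x.num x.den := by
  obtain ⟨hL, k, hk, hcof, ρ, hρ, hq⟩ := hf x hx
  set H : ℝ := ((hgt x : ℕ) : ℝ) with hH
  have hH1 : 1 ≤ H := by rw [hH]; exact_mod_cast hgt_pos x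
  have hH0 : 0 < H := by linarith
  have hA' : (1 : ℝ) ≤ A := by exact_mod_cast hA
  have hR0' : (0 : ℝ) < R2 R0 u v := by
    exact_mod_cast Nat.pos_of_ne_zero (R2_ne hR0 hdet)
  have hex : ∀ j, ∃ s m : ℕ, m ^ 2 * s = (L u v j x.num x.den).natAbs ∧ Squarefree s := fun j =>
    Nat.sq_mul_squarefree _
  choose s m0 hm0 hs using hex
  have hs0 : ∀ j, s j ≠ 0 := fun j => (hs j).ne_zero
  have hm1 : ∀ j, m0 j ≠ 0 := by
    intro j h
    apply hL j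
    rw [← Int.natAbs_eq_zero, ← hm0 j, h]
    simp
  have h1 := key_s hR0 hdet (cop x) hL k hk hcof (f x) ρ hρ hq s m0 hs (fun j => (hm0 j).symm)
  rw [hN] at h1
  have h2 : Real.exp (2 * logDisc (SqrtField (f x))) ≤ H ^ (2 * κ) := by
    rw [Real.rpow_def_of_pos hH0]
    apply Real.exp_le_exp.2
    linarith
  have h3 : ((∏ j, s j : ℕ) : ℝ) ≤ (R2 R0 u v : ℝ) ^ (N + 1) * H ^ (2 * κ) :=
    h1.trans (mul_le_mul_of_nonneg_left h2 (by positivity))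
  obtain ⟨j0, hj0⟩ : ∃ j0 : ι, ∀ j, j ≠ j0 → hgt x ≤ 2 * A * (L u v j x.num x.den).natAbs := by
    by_cases h : ∃ j0, 2 * A * (L u v j0 x.num x.den).natAbs < hgt x
    · obtain ⟨j0, hj0⟩ := h
      exact ⟨j0, fun j hj => H_le hu hv x j0 j (hdet j0 j (Ne.symm hj)) hj0⟩
    · push Not at h
      have : Nonempty ι := Fintype.card_pos_iff.1 (by omega)
      exact ⟨Classical.arbitrary ι, fun j _ => h j⟩
  set I := Finset.univ.erase j0 with hI
  have hIc : I.card = N := by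
    rw [hI, Finset.card_erase_of_mem (Finset.mem_univ _), Finset.card_univ, hN]
    rfl
  have hm1' : ∀ j, (1 : ℝ) ≤ m0 j := fun j => by
    exact_mod_cast Nat.one_le_iff_ne_zero.2 (hm1 j)
  have hs1' : ∀ j, (1 : ℝ) ≤ s j := fun j => by
    exact_mod_cast Nat.one_le_iff_ne_zero.2 (hs0 j)
  have h4 : ∏ j ∈ I, (s j : ℝ) ≤ ∏ j, (s j : ℝ) := by
    rw [← Finset.mul_prod_erase Finset.univ (fun j => (s j : ℝ)) (Finset.mem_univ j0)]
    have : 0 ≤ ∏ j ∈ I, (s j : ℝ) := Finset.prod_nonneg fun j _ => by linarith [hs1' j]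
    rw [← hI]
    nlinarith [hs1' j0]
  have h5 : (H / (2 * A)) ^ N ≤ (∏ j ∈ I, (m0 j : ℝ)) ^ 2 * ∏ j ∈ I, (s j : ℝ) := by
    rw [← Finset.prod_pow, ← Finset.prod_mul_distrib, ← hIc, ← Finset.prod_const]
    apply Finset.prod_le_prod
    · intro j _; positivity
    · intro j hj
      have h6 := hj0 j (Finset.ne_of_mem_erase hj)
      rw [div_le_iff₀ (by positivity)]
      have h7 : (H : ℝ) ≤ ((2 * A * (L u v j x.num x.den).natAbs : ℕ) : ℝ) := by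
        rw [hH]; exact_mod_cast h6
      rw [← hm0 j] at h7
      push_cast at h7
      linarith
  have h6 : (H / (2 * A)) ^ N ≤ (∏ j ∈ I, (m0 j : ℝ)) ^ 2 *
      ((R2 R0 u v : ℝ) ^ (N + 1) * H ^ (2 * κ)) := by
    refine h5.trans (mul_le_mul_of_nonneg_left ?_ (sq_nonneg _))
    refine h4.trans ?_
    push_cast at h3
    exact h3
  set K : ℝ := (2 * A) ^ N * (R2 R0 u v : ℝ) ^ (N + 1) with hK
  have hK0 : 0 < K := by positivity
  have h7 : H ^ (2 * θ) ≤ (∏ j ∈ I, (m0 j : ℝ)) ^ 2 * K := by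
    have h8 : H ^ N = H ^ (2 * θ) * H ^ (2 * κ) := by
      rw [← Real.rpow_add hH0, ← Real.rpow_natCast]
      congr 1
      linarith
    rw [div_pow, div_le_iff₀ (by positivity), h8] at h6
    have h9 : 0 < H ^ (2 * κ) := Real.rpow_pos_of_pos hH0 _
    have h10 : H ^ (2 * θ) * H ^ (2 * κ) ≤
        ((∏ j ∈ I, (m0 j : ℝ)) ^ 2 * K) * H ^ (2 * κ) := by
      refine h6.trans (le_of_eq ?_)
      rw [hK]; ring
    exact le_of_mul_le_mul_right h10 h9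
  set c0 : ℝ := 1 / Real.sqrt K with hc0d
  have hc0 : 0 < c0 := by rw [hc0d]; positivity
  have hP0 : 0 ≤ ∏ j ∈ I, (m0 j : ℝ) := Finset.prod_nonneg fun j _ => by linarith [hm1' j]
  have h8 : c0 * H ^ θ ≤ ∏ j ∈ I, (m0 j : ℝ) := by
    have h9 : (c0 * H ^ θ) ^ 2 ≤ (∏ j ∈ I, (m0 j : ℝ)) ^ 2 := by
      rw [mul_pow, hc0d, div_pow, Real.sq_sqrt hK0.le, one_pow, ← Real.rpow_natCast (H ^ θ) 2,
        ← Real.rpow_mul hH0.le]
      rw [div_mul_eq_mul_div, one_mul, div_le_iff₀ hK0]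
      have : θ * ((2 : ℕ) : ℝ) = 2 * θ := by push_cast; ring
      rw [this]
      exact h7
    exact (sq_le_sq₀ (by positivity) hP0).1 h9
  have h9 : c * B ^ α ≤ ∏ j ∈ I, (m0 j : ℝ) := by
    refine le_trans ?_ h8
    rw [hc, mul_assoc]
    apply mul_le_mul_of_nonneg_left _ hc0.le
    have h10 : B ^ α ≤ B ^ θ := Real.rpow_le_rpow_of_exponent_le hB hαθ
    have h11 : (B / 2) ^ θ ≤ H ^ θ :=
      Real.rpow_le_rpow (by positivity) (by linarith) (hα0.trans hαθ)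
    have h12 : (B / 2) ^ θ = (1 / 2 : ℝ) ^ θ * B ^ θ := by
      rw [← Real.mul_rpow (by norm_num) (by linarith)]
      congr 1
      ring
    rw [h12] at h11
    exact (mul_le_mul_of_nonneg_left h10 (by positivity)).trans h11
  have h10 : 1 ≤ ∏ j ∈ I, (m0 j : ℝ) := by
    calc (1 : ℝ) = ∏ _j ∈ I, (1 : ℝ) := by simp
      _ ≤ _ := Finset.prod_le_prod (fun _ _ => by norm_num) fun j _ => hm1' j
  have hZ1 : 1 ≤ Real.sqrt (2 * A * B) := by
    rw [Real.one_le_sqrt]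
    nlinarith
  have hW11 : 1 ≤ W1 := by rw [hW1]; exact le_max_left _ _
  obtain ⟨J, hJI, hJ1, hJ2⟩ := greedy (fun j => (m0 j : ℝ)) I (Real.sqrt (2 * A * B)) W1 (by
    intro j _
    apply Real.le_sqrt_of_sq_le
    have h11 : m0 j ^ 2 ≤ 2 * A * hgt x := by
      refine le_trans ?_ (L_le hu hv x j)
      rw [← hm0 j]
      exact Nat.le_mul_of_pos_right _ (Nat.pos_of_ne_zero (hs0 j))
    have h12 : ((m0 j : ℝ)) ^ 2 ≤ 2 * A * H := by rw [hH]; exact_mod_cast h11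
    refine h12.trans ?_
    exact mul_le_mul_of_nonneg_left hxB (by positivity)) (fun j _ => hm1' j) hZ1 hW11 (by
    rw [hW1]; exact max_le h10 h9)
  set m : ι → ℕ := fun j => if j ∈ J then m0 j else 1 with hm
  have hmne : ∀ j, m j ≠ 0 := by
    intro j
    rw [hm]
    simp only
    split_ifs
    · exact hm1 j
    · exact one_ne_zero
  have hprod : ∏ j, (m j : ℝ) = ∏ j ∈ J, (m0 j : ℝ) := by
    rw [hm]
    simp only [Nat.cast_ite, Nat.cast_one]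
    rw [Finset.prod_ite_mem]
    simp
  have hge1 : ∀ j, (1 : ℝ) ≤ m j := fun j => by
    exact_mod_cast Nat.one_le_iff_ne_zero.2 (hmne j)
  refine ⟨m, ?_, hmne, ?_⟩
  · unfold MM
    rw [Finset.mem_filter, hprod, hW2]
    refine ⟨?_, hJ1, hJ2⟩
    rw [Fintype.mem_piFinset]
    intro j
    rw [Finset.mem_Icc]
    refine ⟨Nat.one_le_iff_ne_zero.2 (hmne j), ?_⟩
    apply Nat.le_floor
    refine le_trans ?_ hJ2
    rw [← hprod, ← Finset.mul_prod_erase Finset.univ (fun j => (m j : ℝ)) (Finset.mem_univ j)]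
    have h11 : (1 : ℝ) ≤ ∏ i ∈ Finset.univ.erase j, (m i : ℝ) := by
      calc (1 : ℝ) = ∏ _j ∈ Finset.univ.erase j, (1 : ℝ) := by simp
        _ ≤ _ := Finset.prod_le_prod (fun _ _ => by norm_num) fun i _ => hge1 i
    nlinarith [hge1 j]
  · intro j
    rw [hm]
    simp only
    split_ifs
    · rw [Int.natCast_dvd, ← hm0 j]
      exact Dvd.intro _ rfl
    · simp

set_option maxHeartbeats 1000000 in
theorem blk (N : ℕ) (hN : Fintype.card ι = N + 1) {R0 : ℕ} {u v : ι → ℤ}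
    (hR0 : R0 ≠ 0) (hdet : ∀ i j, i ≠ j → det u v i j ≠ 0) (huv : ∀ j, |u j| + |v j| ≠ 0)
    (f : ℚ → ℚ) (hf : Good u v R0 f)
    (κ θ α : ℝ) (hθ : 2 * θ = N - 2 * κ) (hα0 : 0 ≤ α) (hαθ : α ≤ θ) (hα34 : α ≤ 3 / 4) :
    ∃ C : ℝ, 0 ≤ C ∧ ∀ B : ℕ, 1 ≤ B → ∀ S : Finset ℚ, (∀ x ∈ S, hgt x ≤ B ∧ B ≤ 2 * hgt x ∧
      f x ≠ 0 ∧ logDisc (SqrtField (f x)) ≤ κ * Real.log (hgt x)) →
      (S.card : ℝ) ≤ C * ((B : ℝ) ^ (2 - α) * (1 + Real.log B) ^ (N + 1)) := by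
  classical
  set A : ℕ := 1 + ∑ j, ((u j).natAbs + (v j).natAbs) with hA
  have hA1 : 1 ≤ A := by omega
  have hle : ∀ j, (u j).natAbs + (v j).natAbs ≤ ∑ j, ((u j).natAbs + (v j).natAbs) := fun j =>
    Finset.single_le_sum (f := fun j => (u j).natAbs + (v j).natAbs)
      (fun _ _ => Nat.zero_le _) (Finset.mem_univ j)
  have hu : ∀ j, (u j).natAbs ≤ A := fun j => by have := hle j; omega
  have hv : ∀ j, (v j).natAbs ≤ A := fun j => by have := hle j; omega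
  have hA' : (1 : ℝ) ≤ A := by exact_mod_cast hA1
  set R3 : ℝ := ((RR 1 u v * ∏ j, (|u j| + |v j|).natAbs : ℕ) : ℝ) ^ (Fintype.card ι ^ 2)
    with hR3
  have hR30 : 0 ≤ R3 := by rw [hR3]; positivity
  have hRR1 : (1 : ℝ) ≤ R2 R0 u v := by
    exact_mod_cast Nat.one_le_iff_ne_zero.2 (R2_ne hR0 hdet)
  set K0 : ℝ := (2 * A) ^ N * (R2 R0 u v : ℝ) ^ (N + 1) with hK0
  have hK01 : 1 ≤ K0 := by
    rw [hK0]
    have h1 : (1 : ℝ) ≤ (2 * A) ^ N := one_le_pow₀ (by linarith)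
    have h2 : (1 : ℝ) ≤ (R2 R0 u v : ℝ) ^ (N + 1) := one_le_pow₀ hRR1
    nlinarith
  set c : ℝ := 1 / Real.sqrt K0 * (1 / 2 : ℝ) ^ θ with hc
  have hsq1 : 1 ≤ Real.sqrt K0 := Real.one_le_sqrt.2 hK01
  have hc0 : 0 < c := by rw [hc]; positivity
  have hθ0 : 0 ≤ θ := hα0.trans hαθ
  have hc1 : c ≤ 1 := by
    have h1 : 1 / Real.sqrt K0 ≤ 1 := by
      rw [div_le_one (by linarith)]
      exact hsq1
    have h2 : (1 / 2 : ℝ) ^ θ ≤ 1 := Real.rpow_le_one (by norm_num) (by norm_num) hθ0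
    have h3 : 0 ≤ (1 / 2 : ℝ) ^ θ := by positivity
    have h4 : 0 ≤ 1 / Real.sqrt K0 := by positivity
    rw [hc]
    exact mul_le_one₀ h1 h3 h2
  set β : ℝ := Real.log (Real.sqrt (2 * A)) with hβ
  have hβ0 : 0 ≤ β := Real.log_nonneg (Real.one_le_sqrt.2 (by linarith))
  refine ⟨(4 * R3 / c + 2 * Real.sqrt (2 * A)) * (5 / 4 + β) ^ (N + 1), by positivity, ?_⟩
  intro B hB E hEm
  have hB1 : (1 : ℝ) ≤ B := by exact_mod_cast hB
  have hB0 : (0 : ℝ) < B := by linarith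
  have hlogB : 0 ≤ Real.log B := Real.log_nonneg hB1
  set W1 : ℝ := max 1 (c * (B : ℝ) ^ α) with hW1
  set W2 : ℝ := W1 * Real.sqrt (2 * A * B) with hW2
  have hW11 : 1 ≤ W1 := le_max_left _ _
  have hBα : (1 : ℝ) ≤ (B : ℝ) ^ α := Real.one_le_rpow hB1 hα0
  have hW1u : W1 ≤ (B : ℝ) ^ α := by
    rw [hW1]
    apply max_le hBα
    nlinarith
  have hsqAB : Real.sqrt (2 * A * B) = Real.sqrt (2 * A) * (B : ℝ) ^ (1 / 2 : ℝ) := by
    rw [Real.sqrt_mul (by positivity), Real.sqrt_eq_rpow (B : ℝ)]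
  have hW2u' : W2 ≤ Real.sqrt (2 * A) * (B : ℝ) ^ (α + 1 / 2) := by
    rw [hW2, hsqAB, Real.rpow_add hB0]
    have h2 : 0 ≤ Real.sqrt (2 * A) * (B : ℝ) ^ (1 / 2 : ℝ) := by positivity
    calc W1 * (Real.sqrt (2 * A) * (B : ℝ) ^ (1 / 2 : ℝ)) ≤
        (B : ℝ) ^ α * (Real.sqrt (2 * A) * (B : ℝ) ^ (1 / 2 : ℝ)) :=
          mul_le_mul_of_nonneg_right hW1u h2
      _ = _ := by ring
  have hW2u : W2 ≤ Real.sqrt (2 * A) * (B : ℝ) ^ (2 - α) := by
    refine hW2u'.trans (mul_le_mul_of_nonneg_left ?_ (by positivity))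
    exact Real.rpow_le_rpow_of_exponent_le hB1 (by linarith)
  have hW2v : W2 ≤ Real.sqrt (2 * A) * (B : ℝ) ^ (5 / 4 : ℝ) := by
    refine hW2u'.trans (mul_le_mul_of_nonneg_left ?_ (by positivity))
    exact Real.rpow_le_rpow_of_exponent_le hB1 (by linarith)
  have hW20 : 0 ≤ W2 := by rw [hW2]; positivity
  have hW21 : 1 ≤ W2 := by
    have h1 : 1 ≤ Real.sqrt (2 * A * B) := Real.one_le_sqrt.2 (by nlinarith)
    rw [hW2]
    nlinarith
  have hcover : E ⊆ (MM ι ⌊W2⌋₊ W1 W2).biUnion (fun m => E.filter (fun x =>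
      (∀ j, m j ≠ 0) ∧ ∀ j, ((m j ^ 2 : ℕ) : ℤ) ∣ L u v j x.num x.den)) := by
    intro x hx
    obtain ⟨h1, h1', h2, h3⟩ := hEm x hx
    obtain ⟨m, hm, hm0, hmd⟩ := exc_tuple N hN hR0 hdet hA1 hu hv f hf κ θ α hθ hα0 hαθ x h2
      (B : ℝ) hB1 (by exact_mod_cast h1) (by exact_mod_cast h1') h3 c W1 W2 hc hW1 hW2
    rw [Finset.mem_biUnion]
    exact ⟨m, hm, Finset.mem_filter.2 ⟨hx, hm0, hmd⟩⟩
  have hbig : (E.card : ℝ) ≤ ∑ m ∈ MM ι ⌊W2⌋₊ W1 W2,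
      (4 * (B : ℝ) ^ 2 * R3 / (∏ j, (m j : ℝ)) ^ 2 + 2) := by
    have h1 := (Finset.card_le_card hcover).trans Finset.card_biUnion_le
    have h2 : (E.card : ℝ) ≤ ∑ m ∈ MM ι ⌊W2⌋₊ W1 W2, ((E.filter (fun x =>
        (∀ j, m j ≠ 0) ∧ ∀ j, ((m j ^ 2 : ℕ) : ℤ) ∣ L u v j x.num x.den)).card : ℝ) := by
      exact_mod_cast h1
    refine h2.trans (Finset.sum_le_sum fun m _ => ?_)
    by_cases hm : ∀ j, m j ≠ 0
    · apply card_Sm one_ne_zero hdet huv (B : ℝ) hB0 m hm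
      · intro x hx
        have h3 := (hEm x (Finset.mem_filter.1 hx).1).1
        exact_mod_cast h3
      · intro x hx
        exact (Finset.mem_filter.1 hx).2.2
    · have h3 : E.filter (fun x =>
        (∀ j, m j ≠ 0) ∧ ∀ j, ((m j ^ 2 : ℕ) : ℤ) ∣ L u v j x.num x.den) = ∅ := by
        apply Finset.filter_eq_empty_iff.2
        intro x _ h4
        exact hm h4.1
      rw [h3]
      simp only [Finset.card_empty, Nat.cast_zero]
      positivity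
  have hsum := sum_bound (ι := ι) ⌊W2⌋₊ W1 W2 (4 * (B : ℝ) ^ 2 * R3) (by linarith) hW20
    (by positivity)
  rw [hN] at hsum
  have h1 : 4 * (B : ℝ) ^ 2 * R3 / W1 ≤ 4 * R3 / c * (B : ℝ) ^ (2 - α) := by
    rw [div_le_iff₀ (by linarith)]
    have h2 : c * (B : ℝ) ^ α ≤ W1 := le_max_right _ _
    have h3 : (B : ℝ) ^ (2 - α) * (B : ℝ) ^ α = (B : ℝ) ^ 2 := by
      rw [← Real.rpow_add hB0, ← Real.rpow_natCast]; norm_num
    calc 4 * (B : ℝ) ^ 2 * R3 = 4 * R3 / c * (B : ℝ) ^ (2 - α) *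
          (c * (B : ℝ) ^ α) := by
          rw [← h3]; field_simp
      _ ≤ 4 * R3 / c * (B : ℝ) ^ (2 - α) * W1 :=
          mul_le_mul_of_nonneg_left h2 (by positivity)
  have h2 : 4 * (B : ℝ) ^ 2 * R3 / W1 + 2 * W2 ≤
      (4 * R3 / c + 2 * Real.sqrt (2 * A)) * (B : ℝ) ^ (2 - α) := by
    rw [add_mul]
    linarith
  have hfl : Real.log (⌊W2⌋₊ : ℝ) ≤ β + 5 / 4 * Real.log B := by
    have h3 : (1 : ℝ) ≤ (⌊W2⌋₊ : ℝ) := by
      have : 1 ≤ ⌊W2⌋₊ := Nat.le_floor (by simpa using hW21)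
      exact_mod_cast this
    have h4 : (⌊W2⌋₊ : ℝ) ≤ Real.sqrt (2 * A) * (B : ℝ) ^ (5 / 4 : ℝ) :=
      (Nat.floor_le hW20).trans hW2v
    have h5 := Real.log_le_log (by linarith) h4
    rwa [Real.log_mul (by positivity) (by positivity), Real.log_rpow hB0] at h5
  have hfl0 : 0 ≤ Real.log (⌊W2⌋₊ : ℝ) := Real.log_natCast_nonneg _
  have h3 : (1 + Real.log (⌊W2⌋₊ : ℝ)) ^ (N + 1) ≤
      (5 / 4 + β) ^ (N + 1) * (1 + Real.log B) ^ (N + 1) := by
    rw [← mul_pow]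
    apply pow_le_pow_left₀ (by linarith)
    have h6 : 0 ≤ β * Real.log B := mul_nonneg hβ0 hlogB
    have h7 : (5 / 4 + β) * (1 + Real.log B) =
        5 / 4 + β + 5 / 4 * Real.log B + β * Real.log B := by ring
    rw [h7]
    linarith
  have h4 : (E.card : ℝ) ≤ ((4 * R3 / c + 2 * Real.sqrt (2 * A)) * (B : ℝ) ^ (2 - α)) *
      ((5 / 4 + β) ^ (N + 1) * (1 + Real.log B) ^ (N + 1)) := by
    refine (hbig.trans hsum).trans ?_
    apply mul_le_mul h2 h3 (by positivity) (by positivity)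
  refine h4.trans (le_of_eq ?_)
  ring

theorem main_b (N : ℕ) (hN : Fintype.card ι = N + 1) {R0 : ℕ} {u v : ι → ℤ}
    (hR0 : R0 ≠ 0) (hdet : ∀ i j, i ≠ j → det u v i j ≠ 0) (huv : ∀ j, |u j| + |v j| ≠ 0)
    (f : ℚ → ℚ) (hf : Good u v R0 f)
    (κ θ α : ℝ) (hθ : 2 * θ = N - 2 * κ) (hα0 : 0 ≤ α) (hαθ : α ≤ θ) (hα34 : α ≤ 3 / 4) :
    ∃ C : ℝ, ∀ B : ℕ, 1 ≤ B →
      ({x : ℚ | hgt x ≤ B ∧ f x ≠ 0 ∧
        logDisc (SqrtField (f x)) ≤ κ * Real.log (hgt x)}.ncard : ℝ) ≤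
      C * (B : ℝ) ^ (2 - α) * (1 + Real.log B) ^ (N + 1) := by
  classical
  obtain ⟨C, hC0, hC⟩ := blk N hN hR0 hdet huv f hf κ θ α hθ hα0 hαθ hα34
  have tot : ∀ B : ℕ, 1 ≤ B → ∀ S : Finset ℚ, (∀ x ∈ S, hgt x ≤ B ∧
      f x ≠ 0 ∧ logDisc (SqrtField (f x)) ≤ κ * Real.log (hgt x)) →
      (S.card : ℝ) ≤ 2 * C * ((B : ℝ) ^ (2 - α) * (1 + Real.log B) ^ (N + 1)) := by
    intro B
    induction B using Nat.strong_induction_on with
    | _ B ih =>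
      intro hB S hS
      have hB1 : (1 : ℝ) ≤ B := by exact_mod_cast hB
      have hB0 : (0 : ℝ) < B := by linarith
      have hlogB : 0 ≤ Real.log B := Real.log_nonneg hB1
      set T := (B : ℝ) ^ (2 - α) * (1 + Real.log B) ^ (N + 1) with hT
      have hT0 : 0 ≤ T := by positivity
      have h1 := hC B hB (S.filter fun x => B ≤ 2 * hgt x) (by
        intro x hx
        obtain ⟨h2, h3⟩ := Finset.mem_filter.1 hx
        obtain ⟨h4, h5, h6⟩ := hS x h2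
        exact ⟨h4, h3, h5, h6⟩)
      rw [← hT] at h1
      have h2 : ((S.filter fun x => ¬ B ≤ 2 * hgt x).card : ℝ) ≤ C * T := by
        have h3 : ∀ x ∈ S.filter (fun x => ¬ B ≤ 2 * hgt x), hgt x ≤ B / 2 := by
          intro x hx
          have := (Finset.mem_filter.1 hx).2
          omega
        by_cases hB2 : 1 ≤ B / 2
        · have h4 := ih (B / 2) (by omega) hB2 (S.filter fun x => ¬ B ≤ 2 * hgt x) (by
            intro x hx
            obtain ⟨h5, h6⟩ := hS x (Finset.mem_filter.1 hx).1 |>.2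
            exact ⟨h3 x hx, h5, h6⟩)
          refine h4.trans ?_
          have h5 : ((B / 2 : ℕ) : ℝ) ≤ (B : ℝ) / 2 := Nat.cast_div_le
          have hB21 : (1 : ℝ) ≤ ((B / 2 : ℕ) : ℝ) := by exact_mod_cast hB2
          have h6 : ((B / 2 : ℕ) : ℝ) ^ (2 - α) ≤ (B : ℝ) ^ (2 - α) * (1 / 2) := by
            calc ((B / 2 : ℕ) : ℝ) ^ (2 - α) ≤ ((B : ℝ) / 2) ^ (2 - α) :=
                  Real.rpow_le_rpow (by linarith) h5 (by linarith)
              _ = (B : ℝ) ^ (2 - α) * (1 / 2) ^ (2 - α) := by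
                  rw [← Real.mul_rpow hB0.le (by norm_num)]
                  congr 1
                  ring
              _ ≤ (B : ℝ) ^ (2 - α) * (1 / 2) := by
                  apply mul_le_mul_of_nonneg_left _ (by positivity)
                  calc (1 / 2 : ℝ) ^ (2 - α) ≤ (1 / 2 : ℝ) ^ (1 : ℝ) :=
                        Real.rpow_le_rpow_of_exponent_ge (by norm_num) (by norm_num) (by linarith)
                    _ = 1 / 2 := Real.rpow_one _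
          have h7 : (1 + Real.log ((B / 2 : ℕ) : ℝ)) ^ (N + 1) ≤ (1 + Real.log B) ^ (N + 1) := by
            apply pow_le_pow_left₀
            · have := Real.log_nonneg hB21
              linarith
            · have := Real.log_le_log (by linarith) (show ((B / 2 : ℕ) : ℝ) ≤ B by linarith)
              linarith
          have h8 : ((B / 2 : ℕ) : ℝ) ^ (2 - α) * (1 + Real.log ((B / 2 : ℕ) : ℝ)) ^ (N + 1) ≤
              ((B : ℝ) ^ (2 - α) * (1 / 2)) * (1 + Real.log B) ^ (N + 1) := by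
            apply mul_le_mul h6 h7 _ (by positivity)
            have := Real.log_nonneg hB21
            positivity
          calc 2 * C * (((B / 2 : ℕ) : ℝ) ^ (2 - α) *
                (1 + Real.log ((B / 2 : ℕ) : ℝ)) ^ (N + 1)) ≤
              2 * C * (((B : ℝ) ^ (2 - α) * (1 / 2)) * (1 + Real.log B) ^ (N + 1)) :=
                mul_le_mul_of_nonneg_left h8 (by positivity)
            _ = C * T := by rw [hT]; ring
        · have h4 : S.filter (fun x => ¬ B ≤ 2 * hgt x) = ∅ := by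
            apply Finset.eq_empty_of_forall_notMem
            intro x hx
            have h5 := h3 x hx
            have h6 := hgt_pos x
            omega
          rw [h4]
          simp only [Finset.card_empty, Nat.cast_zero]
          positivity
      have h3 : S.card = (S.filter fun x => B ≤ 2 * hgt x).card +
          (S.filter fun x => ¬ B ≤ 2 * hgt x).card :=
        (Finset.card_filter_add_card_filter_not _).symm
      rw [h3]
      push_cast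
      linarith
  refine ⟨2 * C, fun B hB => ?_⟩
  have hfin : {x : ℚ | hgt x ≤ B ∧ f x ≠ 0 ∧
      logDisc (SqrtField (f x)) ≤ κ * Real.log (hgt x)}.Finite :=
    (fin_hgt B).subset fun x hx => hx.1
  rw [Set.ncard_eq_toFinset_card _ hfin]
  refine (tot B hB hfin.toFinset fun x hx => hfin.mem_toFinset.1 hx).trans (le_of_eq ?_)
  ring

end Pool.Agent.H845.Voj2
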