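import Pool.Agent.H845.Voj2.MainA
import Pool.Agent.H845.Voj2.Link

set_option autoImplicit false

namespace Pool.Agent.H845.Voj2

open Module Pool.Agent.H845.Voj

variable {ι : Type} [Fintype ι] [DecidableEq ι]

theorem sf_unique {e d : ℤ} (he : Squarefree e) (hd : Squarefree d) (a b : ℚ) (ha : a ≠ 0)
    (h : a ^ 2 * e = b ^ 2 * d) : e.natAbs = d.natAbs := by
  have hd0 : (d : ℚ) ≠ 0 := by exact_mod_cast hd.ne_zero
  have h1 : IsSquare (((e * d : ℤ)) : ℚ) := by
    refine ⟨b / a * d, ?_⟩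
    push_cast
    field_simp
    linear_combination h
  rw [Rat.isSquare_intCast_iff] at h1
  obtain ⟨t, ht⟩ := h1
  have key : ∀ p q : ℤ, Squarefree p → Squarefree q → (∃ t, p * q = t * t) → p ∣ q := by
    intro p q hp hq hpq
    obtain ⟨t, ht⟩ := hpq
    have h2 : p ∣ t ^ 2 := by rw [sq, ← ht]; exact Dvd.intro _ rfl
    have h3 : p ∣ t := (hp.dvd_pow_iff_dvd two_ne_zero).1 h2
    obtain ⟨w, hw⟩ := h3
    have hp0 : p ≠ 0 := hp.ne_zero
    have h4 : q = p * (w * w) := by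
      apply mul_left_cancel₀ hp0
      rw [ht, hw]
      ring
    rw [h4]
    exact Dvd.intro _ rfl
  exact Nat.dvd_antisymm (Int.natAbs_dvd_natAbs.2 (key e d he hd ⟨t, ht⟩))
    (Int.natAbs_dvd_natAbs.2 (key d e hd he ⟨t, by rw [mul_comm]; exact ht⟩))

theorem key_t {R0 : ℕ} {u v : ι → ℤ} (hR0 : R0 ≠ 0) (hdet : ∀ i j, i ≠ j → det u v i j ≠ 0)
    {a b : ℤ} (hab : IsCoprime a b) (hL : ∀ j, L u v j a b ≠ 0) (k : ℤ) (hk : k ≠ 0)
    (hc : ∀ j, ∀ p : ℕ, p.Prime → (p : ℤ) ∣ L u v j a b → (p : ℤ) ∣ k → p ∣ R0)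
    (q ρ : ℚ) (hρ : ρ ≠ 0)
    (hq : q = ρ ^ 2 * ((k * ∏ j, L u v j a b : ℤ) : ℚ)) (s m : ι → ℕ)
    (hs : ∀ j, Squarefree (s j)) (hm : ∀ j, (L u v j a b).natAbs = m j ^ 2 * s j)
    (d : ℤ) (hd : Squarefree d) (y : ℚ) (hy : (d : ℚ) * y ^ 2 = q) :
    ∏ j, s j ≤ (R2 R0 u v) ^ (Fintype.card ι) * d.natAbs := by
  have hs0 : ∀ j, s j ≠ 0 := fun j => (hs j).ne_zero
  have hm0 : ∀ j, m j ≠ 0 := by
    intro j h
    apply hL j
    rw [← Int.natAbs_eq_zero, hm j, h]
    simp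
  set E : ℤ := k * ∏ j, ((L u v j a b).sign * (s j : ℤ)) with hE
  have hEabs : E.natAbs = k.natAbs * ∏ j, s j := by
    rw [hE, Int.natAbs_mul]
    congr 1
    have h1 : ∀ t : Finset ι, (∏ j ∈ t, ((L u v j a b).sign * (s j : ℤ))).natAbs =
        ∏ j ∈ t, s j := by
      intro t
      induction t using Finset.induction_on with
      | empty => simp
      | insert x t hx ih =>
        rw [Finset.prod_insert hx, Finset.prod_insert hx, Int.natAbs_mul, ih, Int.natAbs_mul,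
          Int.natAbs_sign_of_ne_zero (hL x), one_mul, Int.natAbs_natCast]
    exact h1 _
  have hE0 : E ≠ 0 := by
    rw [← Int.natAbs_ne_zero, hEabs]
    exact mul_ne_zero (Int.natAbs_ne_zero.2 hk) (Finset.prod_ne_zero_iff.2 fun j _ => hs0 j)
  have hprod : k * ∏ j, L u v j a b = E * ((∏ j, m j : ℕ) : ℤ) ^ 2 := by
    rw [hE, mul_assoc]
    congr 1
    push_cast
    rw [← Finset.prod_pow, ← Finset.prod_mul_distrib]
    apply Finset.prod_congr rfl
    intro j _
    have h1 : L u v j a b = (L u v j a b).sign * ((L u v j a b).natAbs : ℤ) :=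
      (Int.sign_mul_natAbs _).symm
    conv_lhs => rw [h1, hm j]
    push_cast
    ring
  obtain ⟨e', w, hw, he'⟩ := Nat.sq_mul_squarefree E.natAbs
  set e : ℤ := E.sign * (e' : ℤ) with he
  have hEe : E = e * (w : ℤ) ^ 2 := by
    have h1 : E = E.sign * (E.natAbs : ℤ) := (Int.sign_mul_natAbs _).symm
    rw [he]
    conv_lhs => rw [h1, ← hw]
    push_cast
    ring
  have heabs : e.natAbs = e' := by
    rw [he, Int.natAbs_mul, Int.natAbs_sign_of_ne_zero hE0, one_mul, Int.natAbs_natCast]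
  have hesq : Squarefree e := by
    rw [← Int.squarefree_natAbs, heabs]
    exact he'
  have hw0 : w ≠ 0 := by
    rintro rfl
    apply hE0
    rw [hEe]; simp
  have hM0 : (∏ j, m j) ≠ 0 := Finset.prod_ne_zero_iff.2 fun j _ => hm0 j
  have he'0 : e' ≠ 0 := he'.ne_zero
  have hrel : (ρ * ((∏ j, m j : ℕ) : ℚ) * (w : ℚ)) ^ 2 * (e : ℚ) = y ^ 2 * d := by
    have h1 : q = (ρ * ((∏ j, m j : ℕ) : ℚ) * (w : ℚ)) ^ 2 * (e : ℚ) := by
      rw [hq, hprod, hEe]
      push_cast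
      ring
    rw [← h1, ← hy]
    ring
  have hne : ρ * ((∏ j, m j : ℕ) : ℚ) * (w : ℚ) ≠ 0 := by
    refine mul_ne_zero (mul_ne_zero hρ ?_) ?_
    · exact_mod_cast hM0
    · exact_mod_cast hw0
  have hed := sf_unique hesq hd _ _ hne hrel
  rw [heabs] at hed
  have h3 : ∏ j, s j ∣ (R2 R0 u v) ^ (Fintype.card ι) * e' := by
    apply s_dvd (R2 R0 u v) e' w k.natAbs (R2_ne hR0 hdet) he'0 (Int.natAbs_ne_zero.2 hk) s hs
    · intro i j hij p _ hpi hpj
      have h4 : (p : ℤ) ∣ det u v i j := by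
        apply dvd_det hab
        · rw [Int.natCast_dvd, hm i]
          exact hpi.mul_left _
        · rw [Int.natCast_dvd, hm j]
          exact hpj.mul_left _
      exact ((Int.natCast_dvd.1 h4).trans (det_dvd_RR 1 u v i j hij)).trans
        (Dvd.intro_left _ rfl)
    · intro j p hp hpj hpk
      refine (hc j p hp ?_ ?_).trans (Dvd.intro _ rfl)
      · rw [Int.natCast_dvd, hm j]
        exact hpj.mul_left _
      · rw [Int.natCast_dvd]
        exact hpk
    · rw [hw, hEabs]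
  have h6 : ∏ j, s j ≤ (R2 R0 u v) ^ (Fintype.card ι) * e' :=
    Nat.le_of_dvd (Nat.pos_of_ne_zero (mul_ne_zero (pow_ne_zero _ (R2_ne hR0 hdet)) he'0)) h3
  rw [← hed]
  exact h6

set_option maxHeartbeats 1000000 in
theorem main_t (r : ℕ) (hr : 2 ≤ r) (hN : Fintype.card ι = r) {R0 : ℕ} {u v : ι → ℤ}
    (hR0 : R0 ≠ 0) (hdet : ∀ i j, i ≠ j → det u v i j ≠ 0)
    (f : ℚ → ℚ) (hf : Good u v R0 f) :
    ∃ C : ℝ, ∀ B D : ℕ, 1 ≤ B → 1 ≤ D → ∀ E : Finset ℚ, (∀ x ∈ E, hgt x ≤ B ∧ f x ≠ 0 ∧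
        ∃ (d : ℤ) (y : ℚ), Squarefree d ∧ d.natAbs ≤ D ∧ (d : ℚ) * y ^ 2 = f x) →
      (E.card : ℝ) ≤ C * B * (D : ℝ) ^ (1 / (r : ℝ)) * (1 + Real.log D) := by
  classical
  have : NeZero r := ⟨by omega⟩
  set A : ℕ := 1 + ∑ j, ((u j).natAbs + (v j).natAbs) with hA
  have hle : ∀ j, (u j).natAbs + (v j).natAbs ≤ ∑ j, ((u j).natAbs + (v j).natAbs) := fun j =>
    Finset.single_le_sum (f := fun j => (u j).natAbs + (v j).natAbs)
      (fun _ _ => Nat.zero_le _) (Finset.mem_univ j)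
  have hu : ∀ j, (u j).natAbs ≤ A := fun j => by have := hle j; omega
  have hv : ∀ j, (v j).natAbs ≤ A := fun j => by have := hle j; omega
  set R : ℝ := (R2 R0 u v : ℝ) with hR
  have hR1 : 1 ≤ R := by
    rw [hR]
    exact_mod_cast Nat.one_le_iff_ne_zero.2 (R2_ne hR0 hdet)
  have hR0' : 0 < R := by linarith
  have hr0 : (0 : ℝ) < (r : ℝ) := by exact_mod_cast (by omega : 0 < r)
  have hlogR : 0 ≤ Real.log R := Real.log_nonneg hR1
  refine ⟨r * (8 * (2 * A) * R) * (1 + 2 * Real.log R + 2 / r), ?_⟩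
  intro B D hB hD E hEm
  have hB1 : (1 : ℝ) ≤ B := by exact_mod_cast hB
  have hB0 : (0 : ℝ) < B := by linarith
  have hD1 : (1 : ℝ) ≤ D := by exact_mod_cast hD
  have hD0 : (0 : ℝ) < D := by linarith
  have hlogD : 0 ≤ Real.log D := Real.log_nonneg hD1
  have hcard : Fintype.card (ZMod r) = Fintype.card ι := by
    rw [hN, ZMod.card]
  set ε : ZMod r ≃ ι := Fintype.equivOfCardEq hcard with hε
  have : Fact (1 < r) := ⟨by omega⟩
  have hne : ∀ k : ZMod r, ε k ≠ ε (k + 1) := by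
    intro k h
    have h1 := ε.injective h
    have h2 : (1 : ZMod r) = 0 := by
      have h3 : k + 1 = k + 0 := by rw [add_zero]; exact h1.symm
      exact add_left_cancel h3
    exact one_ne_zero h2
  set T1 : ℝ := R ^ r * (D : ℝ) with hT1
  have hT10 : 0 < T1 := by rw [hT1]; positivity
  set T0 : ℝ := T1 ^ (2 / (r : ℝ)) with hT0
  have hT00 : 0 < T0 := by rw [hT0]; positivity
  set T : ℕ := ⌊T0⌋₊ with hT
  set Y : ℕ := 2 * A * B with hY
  set P : ZMod r → ℚ → Prop := fun k x =>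
    ∃ s m s' m' : ℕ, 1 ≤ s ∧ 1 ≤ m ∧ 1 ≤ s' ∧ 1 ≤ m' ∧ s * s' ≤ T ∧
        m ^ 2 * s = (L u v (ε k) x.num x.den).natAbs ∧
        m' ^ 2 * s' = (L u v (ε (k + 1)) x.num x.den).natAbs with hP
  have hcover : E ⊆ (Finset.univ : Finset (ZMod r)).biUnion (fun k => E.filter (P k)) := by
    intro x hx
    obtain ⟨h1, h2, d, y, hd, hdD, hdy⟩ := hEm x hx
    obtain ⟨hL, k, hk, hcof, ρ, hρ, hq⟩ := hf x h2
    have hex : ∀ j, ∃ s m : ℕ, m ^ 2 * s = (L u v j x.num x.den).natAbs ∧ Squarefree s :=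
      fun j => Nat.sq_mul_squarefree _
    choose s m hm hs using hex
    have hs0 : ∀ j, 1 ≤ s j := fun j => Nat.one_le_iff_ne_zero.2 (hs j).ne_zero
    have hm0 : ∀ j, 1 ≤ m j := by
      intro j
      apply Nat.one_le_iff_ne_zero.2
      intro h
      apply hL j
      rw [← Int.natAbs_eq_zero, ← hm j, h]
      simp
    have h4 := key_t hR0 hdet (cop x) hL k hk hcof (f x) ρ hρ hq s m hs (fun j => (hm j).symm)
      d hd y hdy
    rw [hN] at h4
    have h6 : ((∏ j, s j : ℕ) : ℝ) ≤ T1 := by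
      have h5 : ∏ j, s j ≤ (R2 R0 u v) ^ r * D := h4.trans (Nat.mul_le_mul_left _ hdD)
      have h5' : ((∏ j, s j : ℕ) : ℝ) ≤ (((R2 R0 u v) ^ r * D : ℕ) : ℝ) := by exact_mod_cast h5
      rw [hT1, hR]
      refine h5'.trans (le_of_eq ?_)
      push_cast
      ring
    have h7 : ∏ k : ZMod r, (s (ε k) * s (ε (k + 1))) = (∏ j, s j) ^ 2 := by
      have h7a : ∏ k : ZMod r, s (ε (k + 1)) = ∏ k : ZMod r, s (ε k) :=
        Equiv.prod_comp (Equiv.addRight (1 : ZMod r)) (fun k => s (ε k))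
      rw [Finset.prod_mul_distrib, h7a, Equiv.prod_comp ε s, sq]
    have h8 : ∃ k : ZMod r, ((s (ε k) * s (ε (k + 1)) : ℕ) : ℝ) ≤ T0 := by
      by_contra hcon
      push Not at hcon
      have h9 : T0 ^ r < ∏ k : ZMod r, ((s (ε k) * s (ε (k + 1)) : ℕ) : ℝ) := by
        have : T0 ^ r = ∏ _k : ZMod r, T0 := by
          rw [Finset.prod_const, Finset.card_univ, ZMod.card]
        rw [this]
        exact Finset.prod_lt_prod_of_nonempty (fun _ _ => hT00) (fun k _ => hcon k)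
          Finset.univ_nonempty
      have h10 : T0 ^ r = T1 ^ 2 := by
        rw [hT0, ← Real.rpow_natCast, ← Real.rpow_mul hT10.le]
        have : 2 / (r : ℝ) * (r : ℝ) = 2 := by field_simp
        rw [this, Real.rpow_two]
      have h11 : ∏ k : ZMod r, ((s (ε k) * s (ε (k + 1)) : ℕ) : ℝ) =
          (((∏ j, s j : ℕ) : ℝ)) ^ 2 := by
        exact_mod_cast h7
      rw [h10, h11] at h9
      have h12 : (((∏ j, s j : ℕ) : ℝ)) ^ 2 ≤ T1 ^ 2 :=
        pow_le_pow_left₀ (by positivity) h6 2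
      linarith
    obtain ⟨k, hk⟩ := h8
    rw [Finset.mem_biUnion]
    refine ⟨k, Finset.mem_univ _, Finset.mem_filter.2 ⟨hx, ?_⟩⟩
    exact ⟨s (ε k), m (ε k), s (ε (k + 1)), m (ε (k + 1)), hs0 _, hm0 _,
      hs0 _, hm0 _, Nat.le_floor hk, hm _, hm _⟩
  have hone : ∀ k, ((E.filter (P k)).card : ℝ) ≤
      8 * Y * Real.sqrt T * (1 + Real.log T) := by
    intro k
    apply pair_count (ε k) (ε (k + 1)) (hdet _ _ (hne k)) Y T
    intro x hx
    obtain ⟨hxE, hxP⟩ := Finset.mem_filter.1 hx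
    have h1 := (hEm x hxE).1
    have h2 : ∀ j, (L u v j x.num x.den).natAbs ≤ Y := fun j =>
      (L_le hu hv x j).trans (Nat.mul_le_mul_left _ h1)
    exact ⟨h2 _, h2 _, hxP⟩
  have htot : (E.card : ℝ) ≤ r * (8 * Y * Real.sqrt T * (1 + Real.log T)) := by
    have h1 := (Finset.card_le_card hcover).trans Finset.card_biUnion_le
    have h2 : (E.card : ℝ) ≤ ∑ k : ZMod r, ((E.filter (P k)).card : ℝ) := by
      exact_mod_cast h1
    refine h2.trans ((Finset.sum_le_sum fun k _ => hone k).trans (le_of_eq ?_))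
    rw [Finset.sum_const, Finset.card_univ, ZMod.card, nsmul_eq_mul]
  have hTle : (T : ℝ) ≤ T0 := Nat.floor_le hT00.le
  have hsqT : Real.sqrt T ≤ R * (D : ℝ) ^ (1 / (r : ℝ)) := by
    have h1 : Real.sqrt T0 = R * (D : ℝ) ^ (1 / (r : ℝ)) := by
      rw [Real.sqrt_eq_iff_mul_self_eq hT00.le (by positivity), hT0, hT1,
        Real.mul_rpow (by positivity) (by positivity), ← Real.rpow_natCast R r,
        ← Real.rpow_mul hR0'.le]
      have h2 : (r : ℝ) * (2 / (r : ℝ)) = 2 := by field_simp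
      have h3 : (2 : ℝ) / r = 1 / r + 1 / r := by ring
      rw [h2, h3, Real.rpow_add hD0, Real.rpow_two]
      ring
    rw [← h1]
    exact Real.sqrt_le_sqrt hTle
  have hlogT : Real.log T ≤ 2 * Real.log R + 2 / r * Real.log D := by
    have h1 : Real.log T0 = 2 * Real.log R + 2 / r * Real.log D := by
      rw [hT0, hT1, Real.log_rpow (by positivity), Real.log_mul (by positivity) (by positivity),
        Real.log_pow]
      field_simp
    rcases Nat.eq_zero_or_pos T with h0 | h0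
    · rw [h0]
      simp only [Nat.cast_zero, Real.log_zero]
      positivity
    · rw [← h1]
      exact Real.log_le_log (by exact_mod_cast h0) hTle
  have hlogT0 : 0 ≤ Real.log (T : ℝ) := Real.log_natCast_nonneg _
  have h9 : 1 + Real.log T ≤ (1 + 2 * Real.log R + 2 / r) * (1 + Real.log D) := by
    have h10 : 0 ≤ 2 / (r : ℝ) := by positivity
    have h11 : 0 ≤ Real.log R * Real.log D := mul_nonneg hlogR hlogD
    have h12 : (1 + 2 * Real.log R + 2 / r) * (1 + Real.log D) =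
        1 + 2 * Real.log R + 2 / r + Real.log D + 2 * (Real.log R * Real.log D) +
        2 / r * Real.log D := by ring
    rw [h12]
    linarith
  refine htot.trans ?_
  have hYr : (Y : ℝ) = 2 * A * B := by rw [hY]; push_cast; ring
  rw [hYr]
  calc (r : ℝ) * (8 * (2 * A * B) * Real.sqrt T * (1 + Real.log T)) ≤
      (r : ℝ) * (8 * (2 * A * B) * (R * (D : ℝ) ^ (1 / (r : ℝ))) *
        ((1 + 2 * Real.log R + 2 / r) * (1 + Real.log D))) := by
        apply mul_le_mul_of_nonneg_left _ hr0.le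
        apply mul_le_mul _ h9 (by positivity) (by positivity)
        exact mul_le_mul_of_nonneg_left hsqT (by positivity)
    _ = _ := by ring

end Pool.Agent.H845.Voj2
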